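import Mathlib

namespace Pool.Agent.Results.MP_0b9bd1_al.No

open CategoryTheory

/-- left Lee n-coherent: finitely generated submodules of finite free modules with
projective dimension at most n - 1 are finitely presented -/
def LeeCoh (R : Type) [Ring R] (n : ℕ) : Prop :=
  ∀ (m : ℕ), 1 ≤ m → ∀ K : Submodule R (Fin m → R), K.FG →
    projectiveDimension (ModuleCat.of R K) ≤ ((n - 1 : ℕ) : WithBot ℕ∞) →
    Module.FinitePresentation R K

/-- weakly left Lee n-coherent: the same for finitely generated left ideals -/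
def WeakLeeCoh (R : Type) [Ring R] (n : ℕ) : Prop :=
  ∀ I : Ideal R, I.FG → projectiveDimension (ModuleCat.of R I) ≤ ((n - 1 : ℕ) : WithBot ℕ∞) →
    Module.FinitePresentation R I

@[ext]
structure T where
  a : ℚ
  s0 : ℚ
  s1 : ℚ
  s2 : ℚ
  c : ℚ
  e0 : ℚ
  e1 : ℚ
  e2 : ℚ
  v : ℕ →₀ ℚ

namespace T

noncomputable def eqv : T ≃ ℚ × ℚ × ℚ × ℚ × ℚ × ℚ × ℚ × ℚ × (ℕ →₀ ℚ) where
  toFun r := (r.a, r.s0, r.s1, r.s2, r.c, r.e0, r.e1, r.e2, r.v)
  invFun p := ⟨p.1, p.2.1, p.2.2.1, p.2.2.2.1, p.2.2.2.2.1, p.2.2.2.2.2.1, p.2.2.2.2.2.2.1,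
    p.2.2.2.2.2.2.2.1, p.2.2.2.2.2.2.2.2⟩

noncomputable instance : AddCommGroup T := eqv.addCommGroup

noncomputable instance : Mul T where
  mul r t := ⟨r.a * t.a, r.s0 * t.s0, r.s0 * t.s1 + r.s1 * t.s0, r.s0 * t.s2 + r.s2 * t.s0, r.c * t.c,
    r.e0 * t.a + r.s0 * t.e0 + r.s1 * t.e1 + r.s2 * t.e2, r.e1 * t.a + r.s0 * t.e1,
    r.e2 * t.a + r.s0 * t.e2, t.s0 • r.v + r.c • t.v⟩

noncomputable instance : One T := ⟨⟨1, 1, 0, 0, 1, 0, 0, 0, 0⟩⟩

variable (r t : T)

@[simp] theorem add_a : (r + t).a = r.a + t.a := rfl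
@[simp] theorem add_s0 : (r + t).s0 = r.s0 + t.s0 := rfl
@[simp] theorem add_s1 : (r + t).s1 = r.s1 + t.s1 := rfl
@[simp] theorem add_s2 : (r + t).s2 = r.s2 + t.s2 := rfl
@[simp] theorem add_c : (r + t).c = r.c + t.c := rfl
@[simp] theorem add_e0 : (r + t).e0 = r.e0 + t.e0 := rfl
@[simp] theorem add_e1 : (r + t).e1 = r.e1 + t.e1 := rfl
@[simp] theorem add_e2 : (r + t).e2 = r.e2 + t.e2 := rfl
@[simp] theorem add_v : (r + t).v = r.v + t.v := rfl
@[simp] theorem zero_a : (0 : T).a = 0 := rfl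
@[simp] theorem zero_s0 : (0 : T).s0 = 0 := rfl
@[simp] theorem zero_s1 : (0 : T).s1 = 0 := rfl
@[simp] theorem zero_s2 : (0 : T).s2 = 0 := rfl
@[simp] theorem zero_c : (0 : T).c = 0 := rfl
@[simp] theorem zero_e0 : (0 : T).e0 = 0 := rfl
@[simp] theorem zero_e1 : (0 : T).e1 = 0 := rfl
@[simp] theorem zero_e2 : (0 : T).e2 = 0 := rfl
@[simp] theorem zero_v : (0 : T).v = 0 := rfl
@[simp] theorem one_a : (1 : T).a = 1 := rfl
@[simp] theorem one_s0 : (1 : T).s0 = 1 := rfl
@[simp] theorem one_s1 : (1 : T).s1 = 0 := rfl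
@[simp] theorem one_s2 : (1 : T).s2 = 0 := rfl
@[simp] theorem one_c : (1 : T).c = 1 := rfl
@[simp] theorem one_e0 : (1 : T).e0 = 0 := rfl
@[simp] theorem one_e1 : (1 : T).e1 = 0 := rfl
@[simp] theorem one_e2 : (1 : T).e2 = 0 := rfl
@[simp] theorem one_v : (1 : T).v = 0 := rfl
@[simp] theorem mul_a : (r * t).a = r.a * t.a := rfl
@[simp] theorem mul_s0 : (r * t).s0 = r.s0 * t.s0 := rfl
@[simp] theorem mul_s1 : (r * t).s1 = r.s0 * t.s1 + r.s1 * t.s0 := rfl
@[simp] theorem mul_s2 : (r * t).s2 = r.s0 * t.s2 + r.s2 * t.s0 := rfl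
@[simp] theorem mul_c : (r * t).c = r.c * t.c := rfl
@[simp] theorem mul_e0 : (r * t).e0 = r.e0 * t.a + r.s0 * t.e0 + r.s1 * t.e1 + r.s2 * t.e2 := rfl
@[simp] theorem mul_e1 : (r * t).e1 = r.e1 * t.a + r.s0 * t.e1 := rfl
@[simp] theorem mul_e2 : (r * t).e2 = r.e2 * t.a + r.s0 * t.e2 := rfl
@[simp] theorem mul_v : (r * t).v = t.s0 • r.v + r.c • t.v := rfl

noncomputable instance : Ring T :=
  { (inferInstance : AddCommGroup T) with
    mul_assoc := fun r t u => by ext <;> simp <;> ring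
    one_mul := fun r => by ext <;> simp
    mul_one := fun r => by ext <;> simp
    left_distrib := fun r t u => by ext <;> simp <;> ring
    right_distrib := fun r t u => by ext <;> simp <;> ring
    zero_mul := fun r => by ext <;> simp
    mul_zero := fun r => by ext <;> simp }

end T

noncomputable def i1 (q : ℚ) : T := ⟨q, 0, 0, 0, 0, 0, 0, 0, 0⟩
noncomputable def i2 (q : ℚ) : T := ⟨0, q, 0, 0, 0, 0, 0, 0, 0⟩
noncomputable def i3 (q : ℚ) : T := ⟨0, 0, 0, 0, q, 0, 0, 0, 0⟩
noncomputable def sg (p q : ℚ) : T := ⟨0, 0, p, q, 0, 0, 0, 0, 0⟩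
noncomputable def ep (o p q : ℚ) : T := ⟨0, 0, 0, 0, 0, o, p, q, 0⟩

section general

variable {R : Type} [Ring R]

theorem pd_retract {M M' : Type} [AddCommGroup M] [Module R M] [AddCommGroup M'] [Module R M']
    (i : M' →ₗ[R] M) (p : M →ₗ[R] M') (h : p.comp i = LinearMap.id)
    (hM : HasProjectiveDimensionLT (ModuleCat.of R M) 2) :
    HasProjectiveDimensionLT (ModuleCat.of R M') 2 :=
  Retract.hasProjectiveDimensionLT (X := ModuleCat.of R M') (Y := ModuleCat.of R M)
    ⟨ModuleCat.ofHom i, ModuleCat.ofHom p, by rw [← ModuleCat.ofHom_comp, h]; rfl⟩ 2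

theorem pd_iff {F M : Type} [AddCommGroup F] [Module R F] [Module.Projective R F] [AddCommGroup M]
    [Module R M] (π : F →ₗ[R] M) (hπ : Function.Surjective π) :
    HasProjectiveDimensionLT (ModuleCat.of R M) 2 ↔ Module.Projective R (LinearMap.ker π) := by
  let S : ShortComplex (ModuleCat.{0} R) :=
    ShortComplex.mk (ModuleCat.ofHom (LinearMap.ker π).subtype) (ModuleCat.ofHom π) (by
      ext w
      exact w.2)
  have hS : S.ShortExact := ModuleCat.shortComplex_shortExact S (LinearMap.exact_subtype_ker_map π)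
    (Submodule.injective_subtype _) hπ
  have h := hS.hasProjectiveDimensionLT_X₃_iff 0
    (inferInstanceAs (Projective (ModuleCat.of R F)))
  refine h.trans ?_
  rw [← projective_iff_hasProjectiveDimensionLT_one]
  exact (IsProjective.iff_projective (R := R) (LinearMap.ker π)).symm

def cut (M : Ideal R) (e : R) : Ideal R := M ⊓ LinearMap.ker (LinearMap.toSpanSingleton R R e)

theorem split (M : Ideal R) (e g : R) (he : e * e = e) (hg : g ∈ M) (hge : g * e = e) :
    (HasProjectiveDimensionLT (ModuleCat.of R M) 2 →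
      HasProjectiveDimensionLT (ModuleCat.of R (cut M e)) 2) ∧
    (Module.Projective R (cut M e) → Module.Projective R M) := by
  let ρ : R →ₗ[R] R := LinearMap.toSpanSingleton R R (1 - e * g)
  let p : M →ₗ[R] cut M e := (ρ.comp M.subtype).codRestrict _ fun r => by
    constructor
    · change r.1 * (1 - e * g) ∈ M
      rw [mul_sub, mul_one, ← mul_assoc]
      exact M.sub_mem r.2 (M.mul_mem_left _ hg)
    · change r.1 * (1 - e * g) * e = 0
      rw [mul_assoc, sub_mul, mul_assoc, hge, he, one_mul, sub_self, mul_zero]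
  let i : cut M e →ₗ[R] M := Submodule.inclusion inf_le_left
  constructor
  · refine pd_retract i p ?_
    ext r
    change r.1 * (1 - e * g) = r.1
    have h1 : r.1 * e = 0 := r.2.2
    rw [mul_sub, ← mul_assoc, h1, zero_mul, sub_zero, mul_one]
  · intro h
    refine Module.Projective.of_split (M := R × cut M e) (M.subtype.prod p)
      ((LinearMap.toSpanSingleton R M ⟨e * g, M.mul_mem_left _ hg⟩).coprod i) ?_
    ext r
    change r.1 * (e * g) + r.1 * (1 - e * g) = r.1
    rw [← mul_add, add_sub_cancel, mul_one]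

end general

theorem projW (W : Type) [AddCommGroup W] [Module T W] (h : ∀ w : W, i3 1 • w = w) :
    Module.Projective T W := by
  let j : ℚ →+* T :=
    { toFun := fun q => i1 q + i2 q + i3 q
      map_one' := by ext <;> simp [i1, i2, i3]
      map_zero' := by ext <;> simp [i1, i2, i3]
      map_add' := fun p q => by ext <;> simp [i1, i2, i3]
      map_mul' := fun p q => by ext <;> simp [i1, i2, i3] }
  refine Module.Projective.of_lifting_property'' fun f hf => ?_
  let _ : Module ℚ W := Module.compHom W j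
  let _ : Module ℚ (W →₀ T) := Module.compHom (W →₀ T) j
  obtain ⟨ψ, hψ⟩ := Module.projective_lifting_property f.toAddMonoidHom.toRatLinearMap
    (LinearMap.id : W →ₗ[ℚ] W) hf
  have hj : ∀ r : T, r * i3 1 = j r.c * i3 1 := fun r => by ext <;> simp [j, i1, i2, i3]
  have hj' : ∀ q : ℚ, i3 1 * j q = j q * i3 1 := fun q => by ext <;> simp [j, i1, i2, i3]
  refine ⟨{ toFun := fun w => i3 1 • ψ w
            map_add' := fun v w => by rw [map_add, smul_add]
            map_smul' := fun r w => ?_ }, ?_⟩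
  · have h1 : r • w = r.c • w := by
      change r • w = j r.c • w
      rw [← h w, ← mul_smul, ← mul_smul, hj]
    rw [RingHom.id_apply, h1, map_smul, ← mul_smul r, hj r, ← hj', mul_smul]
    rfl
  · ext1 w
    change f (i3 1 • ψ w) = w
    rw [map_smul]
    exact (congrArg _ (LinearMap.congr_fun hψ w)).trans (h w)

theorem socle (L : Type) [AddCommGroup L] [Module T L] [hL : Module.Projective T L] (v : L)
    (h0 : i2 1 • v = v) (h1 : sg 1 0 • v = 0) (h2 : sg 0 1 • v = 0) :
    ∃ l l' : L, v = sg 1 0 • l + sg 0 1 • l' := by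
  obtain ⟨s, hs⟩ := hL.out
  have key : ∀ j, s v j = sg 1 0 * (i2 (s v j).s1 + ep 0 (s v j).e0 0) + sg 0 1 * i2 (s v j).s2 := by
    intro j
    have a0 : i2 1 * s v j = s v j := by
      rw [← smul_eq_mul, ← Finsupp.smul_apply, ← map_smul, h0]
    have a1 : sg 1 0 * s v j = 0 := by
      rw [← smul_eq_mul, ← Finsupp.smul_apply, ← map_smul, h1, map_zero, Finsupp.zero_apply]
    have a2 : sg 0 1 * s v j = 0 := by
      rw [← smul_eq_mul, ← Finsupp.smul_apply, ← map_smul, h2, map_zero, Finsupp.zero_apply]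
    have b1 := congrArg T.s1 a1
    have b2 := congrArg T.e0 a1
    have b3 := congrArg T.e0 a2
    have b4 := congrArg T.a a0
    have b5 := congrArg T.c a0
    have b6 := congrArg T.v a0
    simp [i2, sg] at b1 b2 b3 b4 b5 b6
    ext <;> simp [i2, sg, ep, b1, b2, b3, ← b4, ← b5, ← b6]
  refine ⟨∑ j ∈ (s v).support, (i2 (s v j).s1 + ep 0 (s v j).e0 0) • j,
    ∑ j ∈ (s v).support, i2 (s v j).s2 • j, ?_⟩
  conv_lhs => rw [← hs v, Finsupp.linearCombination_apply, Finsupp.sum]
  rw [Finset.smul_sum, Finset.smul_sum, ← Finset.sum_add_distrib]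
  refine Finset.sum_congr rfl fun j _ => ?_
  rw [← mul_smul, ← mul_smul, ← add_smul, ← key]
  rfl

theorem lemA (J : Type) [AddCommGroup J] [Module T J] (hJ : ∀ w : J, i1 1 • w = 0)
    (hpd : HasProjectiveDimensionLT (ModuleCat.of T J) 2) (u : J) (p q : ℚ) (hpq : p ≠ 0 ∨ q ≠ 0)
    (hu : sg p q • u = 0) : ∃ l l' : J, i2 1 • u = sg 1 0 • l + sg 0 1 • l' := by
  let π : (J →₀ T) →ₗ[T] J := Finsupp.linearCombination T id
  have hπ : Function.Surjective π := fun w => ⟨Finsupp.single w 1, by simp [π]⟩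
  have := (pd_iff π hπ).1 hpd
  have hm : Finsupp.single u (sg p q) ∈ LinearMap.ker π := by simpa [π] using hu
  obtain ⟨l, l', hl⟩ := socle (LinearMap.ker π) ⟨_, hm⟩
    (Subtype.ext (by
      change i2 1 • Finsupp.single u (sg p q) = Finsupp.single u (sg p q)
      rw [Finsupp.smul_single, smul_eq_mul]
      congr 1
      ext <;> simp [i2, sg]))
    (Subtype.ext (by
      change sg 1 0 • Finsupp.single u (sg p q) = 0
      rw [Finsupp.smul_single, smul_eq_mul, Finsupp.single_eq_zero]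
      ext <;> simp [sg]))
    (Subtype.ext (by
      change sg 0 1 • Finsupp.single u (sg p q) = 0
      rw [Finsupp.smul_single, smul_eq_mul, Finsupp.single_eq_zero]
      ext <;> simp [sg]))
  have hl' : ∀ j, Finsupp.single u (sg p q) j = sg 1 0 * l.1 j + sg 0 1 * l'.1 j := fun j =>
    congrArg (fun z : LinearMap.ker π => z.1 j) hl
  have main : ∀ f : J →₀ T, (∀ j, (f j).s0 = 0) → ∃ l l' : J, i2 1 • π f = sg 1 0 • l + sg 0 1 • l' := by
    intro f hf
    refine ⟨∑ j ∈ f.support, i2 (f j).s1 • j, ∑ j ∈ f.support, i2 (f j).s2 • j, ?_⟩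
    rw [Finsupp.linearCombination_apply, Finsupp.sum, Finset.smul_sum, Finset.smul_sum,
      Finset.smul_sum, ← Finset.sum_add_distrib]
    refine Finset.sum_congr rfl fun j _ => ?_
    have h1 : i2 1 * f j = sg 1 0 * i2 (f j).s1 + sg 0 1 * i2 (f j).s2
        + ep (f j).e0 (f j).e1 (f j).e2 * i1 1 := by
      ext <;> simp [i1, i2, sg, ep, hf]
    rw [← mul_smul, h1, add_smul, add_smul, mul_smul, mul_smul, mul_smul, hJ, smul_zero, add_zero]
    rfl
  have fin : ∀ (m : LinearMap.ker π) (o : ℚ), o ≠ 0 →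
      (∀ j, (Finsupp.single u (i2 o) j).s0 = (m.1 j).s0) →
      ∃ l l' : J, i2 1 • u = sg 1 0 • l + sg 0 1 • l' := by
    intro m o ho hm
    obtain ⟨a, b, hab⟩ := main (i2 o⁻¹ • (Finsupp.single u (i2 o) + (-1 : T) • m.1)) fun j => by
      have h2 : (-1 : T).s0 = -1 := rfl
      rw [Finsupp.smul_apply, Finsupp.add_apply, Finsupp.smul_apply, smul_eq_mul, smul_eq_mul,
        T.mul_s0, T.add_s0, T.mul_s0, hm, h2]
      ring
    refine ⟨a, b, Eq.trans ?_ hab⟩
    have h3 : π (Finsupp.single u (i2 o)) = i2 o • u := by simp [π]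
    rw [map_smul, map_add, map_smul, m.2, smul_zero, add_zero, h3, ← mul_smul, ← mul_smul]
    congr 1
    ext <;> simp [i2, ho]
  classical
  rcases hpq with h | h
  · refine fin l p h fun j => ?_
    have := congrArg T.s1 (hl' j)
    rw [Finsupp.single_apply] at this ⊢
    split_ifs at this ⊢ <;> simpa [sg, i2] using this
  · refine fin l' q h fun j => ?_
    have := congrArg T.s2 (hl' j)
    rw [Finsupp.single_apply] at this ⊢
    split_ifs at this ⊢ <;> simpa [sg, i2] using this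

theorem T0 (M : Ideal T) (ha : ∀ r ∈ M, r.a = 0) (hs : ∀ r ∈ M, r.s0 = 0)
    (hpd : HasProjectiveDimensionLT (ModuleCat.of T M) 2) : Module.Projective T M := by
  have h1 : ∀ w : M, i1 1 • w = 0 := fun w => Subtype.ext (by
    change i1 1 * w.1 = 0
    ext <;> simp [i1, ha _ w.2])
  have h2 : ∀ u : M, ∃ l l' : M, i2 1 • u = sg 1 0 • l + sg 0 1 • l' := by
    intro u
    by_cases h : u.1.e2 ≠ 0 ∨ -u.1.e1 ≠ 0
    · refine lemA M h1 hpd u _ _ h (Subtype.ext ?_)
      change sg _ _ * u.1 = 0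
      ext <;> simp [sg, hs _ u.2]
      ring
    · push Not at h
      refine lemA M h1 hpd u 1 0 (Or.inl one_ne_zero) (Subtype.ext ?_)
      change sg _ _ * u.1 = 0
      ext <;> simp [sg, hs _ u.2, neg_eq_zero.1 h.2]
  have h3 : ∀ (p q : ℚ) (u : M), sg p q • u = 0 := by
    intro p q u
    obtain ⟨l, l', h⟩ := h2 u
    have a1 : sg p q = sg p q * i2 1 := by ext <;> simp [sg, i2]
    have a2 : ∀ p' q', sg p q * sg p' q' = 0 := fun p' q' => by ext <;> simp [sg]
    rw [a1, mul_smul, h, smul_add, ← mul_smul, ← mul_smul, a2, a2, zero_smul, zero_smul, add_zero]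
  refine projW M fun w => ?_
  obtain ⟨l, l', h⟩ := h2 w
  rw [h3, h3, add_zero] at h
  have a1 : (1 : T) = i1 1 + i2 1 + i3 1 := by ext <;> simp [i1, i2, i3]
  conv_rhs => rw [← one_smul T w, a1, add_smul, add_smul, h1, h, zero_add, zero_add]

theorem T1 (M : Ideal T) (ha : ∀ r ∈ M, r.a = 0)
    (hpd : HasProjectiveDimensionLT (ModuleCat.of T M) 2) : Module.Projective T M := by
  by_cases hs : ∀ r ∈ M, r.s0 = 0
  · exact T0 M ha hs hpd
  push Not at hs
  obtain ⟨g, hg, hg0⟩ := hs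
  obtain ⟨h1, h2⟩ := split M (i2 1)
    ((i2 g.s0⁻¹ + sg (-g.s1 * g.s0⁻¹ * g.s0⁻¹) (-g.s2 * g.s0⁻¹ * g.s0⁻¹)) * g)
    (by ext <;> simp [i2]) (M.mul_mem_left _ hg) (by
      ext <;> simp [i2, sg, hg0] <;> field_simp <;> ring)
  refine h2 (T0 _ (fun r hr => ha r hr.1) (fun r hr => ?_) (h1 hpd))
  have h3 : r * i2 1 = 0 := hr.2
  simpa [i2] using congrArg T.s0 h3

theorem T2 (M : Ideal T) (hpd : HasProjectiveDimensionLT (ModuleCat.of T M) 2) :
    Module.Projective T M := by
  by_cases ha : ∀ r ∈ M, r.a = 0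
  · exact T1 M ha hpd
  push Not at ha
  obtain ⟨g, hg, hg0⟩ := ha
  obtain ⟨h1, h2⟩ := split M (i1 1) (i1 g.a⁻¹ * g)
    (by ext <;> simp [i1]) (M.mul_mem_left _ hg) (by ext <;> simp [i1, hg0])
  refine h2 (T1 _ (fun r hr => ?_) (h1 hpd))
  have h3 : r * i1 1 = 0 := hr.2
  simpa [i1] using congrArg T.a h3

theorem result : ∃ (R : Type) (_ : Ring R), WeakLeeCoh R 2 ∧ ¬ LeeCoh R 2 := by
  refine ⟨T, inferInstance, fun I hI hpd => ?_, fun h => ?_⟩
  · have := T2 I ((projectiveDimension_le_iff _ 1).1 hpd)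
    have := Module.Finite.iff_fg.2 hI
    exact Module.finitePresentation_of_projective _ _
  · let φ := LinearMap.toSpanSingleton T (Fin 2 → T) ![ep 0 1 0, ep 0 0 1]
    let π := φ.rangeRestrict
    have hk : ∀ r : T, r ∈ LinearMap.ker π ↔ r.s0 = 0 ∧ r.s1 = 0 ∧ r.s2 = 0 := by
      intro r
      rw [LinearMap.ker_rangeRestrict, LinearMap.mem_ker]
      constructor
      · intro h
        have a0 : r * ep 0 1 0 = 0 := congrFun h 0
        have a1 : r * ep 0 0 1 = 0 := congrFun h 1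
        exact ⟨by simpa [ep] using congrArg T.e1 a0, by simpa [ep] using congrArg T.e0 a0,
          by simpa [ep] using congrArg T.e0 a1⟩
      · rintro ⟨b0, b1, b2⟩
        funext i
        fin_cases i
        · change r * ep 0 1 0 = 0
          ext <;> simp [ep, b0, b1]
        · change r * ep 0 0 1 = 0
          ext <;> simp [ep, b0, b2]
    have hp : Module.Projective T (LinearMap.ker π) := by
      refine (split (LinearMap.ker π) (i1 1) (i1 1) (by ext <;> simp [i1]) ((hk _).2 ⟨rfl, rfl, rfl⟩)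
        (by ext <;> simp [i1])).2 (projW _ fun w => Subtype.ext ?_)
      obtain ⟨b0, b1, b2⟩ := (hk _).1 w.2.1
      have b3 : w.1 * i1 1 = 0 := w.2.2
      have c1 := congrArg T.a b3
      have c2 := congrArg T.e0 b3
      have c3 := congrArg T.e1 b3
      have c4 := congrArg T.e2 b3
      simp [i1] at c1 c2 c3 c4
      change i3 1 * w.1 = w.1
      ext <;> simp [i3, b0, b1, b2, c1, c2, c3, c4]
    have h1 := h 2 (by norm_num) (LinearMap.range φ) (by
      rw [LinearMap.range_toSpanSingleton]; exact Submodule.fg_span_singleton _)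
      ((projectiveDimension_le_iff _ 1).2 ((pd_iff π φ.surjective_rangeRestrict).2 hp))
    obtain ⟨S, hS⟩ := Module.FinitePresentation.fg_ker π φ.surjective_rangeRestrict
    obtain ⟨n, hn⟩ := Infinite.exists_notMem_finset (S.biUnion fun r => r.v.support)
    have h2 : ∀ r ∈ Submodule.span T (S : Set T), r.s0 = 0 ∧ r.v n = 0 := by
      intro r hr
      induction hr using Submodule.span_induction with
      | mem x hx =>
        refine ⟨((hk x).1 (hS ▸ Submodule.subset_span hx)).1, ?_⟩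
        by_contra h3
        exact hn (Finset.mem_biUnion.2 ⟨x, hx, Finsupp.mem_support_iff.2 h3⟩)
      | zero => exact ⟨rfl, rfl⟩
      | add x y _ _ hx hy => simp [hx, hy]
      | smul t x _ hx => simp [hx]
    have h3 := (h2 ⟨0, 0, 0, 0, 0, 0, 0, 0, Finsupp.single n 1⟩
      (hS ▸ (hk _).2 ⟨rfl, rfl, rfl⟩)).2
    simp at h3

end Pool.Agent.Results.MP_0b9bd1_al.No
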